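import Mathlib
import Pool.Agent.X202.CondBasis5
import Pool.Agent.X202.GenRen2
import Pool.Agent.X202.Renorm

set_option autoImplicit false

/-!
# Renormings with Property (A), and reflexive spaces with conditional bases with Property (A)

General renorming theorem. Let `x` be a bidemocratic Schauder basis of a Banach space whose
coordinate functionals `f` are quasi-greedy. Let `φ` be a concave function equivalent to the
fundamental function (such a `φ` is `m ↦ inf_k (1 + m/k) U(k)`, `U` the upper fundamental function).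
For a large constant `D` put

`N(v) = sup (2 D φ(m) / m) ∑_{n ∈ A} |f_n(v)| + |∑_{n ∉ A} (T_l g)_n f_n(v)|`,  `m = |A|`,

over the finite sets `A`, the functionals `g` of norm at most one with finitely many coefficients,
and the levels `l` at which the mass of `g` above `l` is `min (‖g‖_1, D φ(m))`. Truncation `T_l` is
bounded since the dual is quasi-greedy. Adding to `A` a coordinate of maximal modulus does not
decrease the value, so that only sets `A` containing all top coordinates matter, and `N` has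
Property (A); it is equivalent to the norm by bidemocracy.

Reflexive example: the conditional almost greedy basis of `ℓ_2` of the Dilworth–Kalton–Kutzarova
kind constructed in `Pool.Agent.X202.CondBasis`, with the new norm.
-/

open Filter Topology

namespace Pool.Agent.Results.MP_65ccae_an.ReflexivePropertyA

section Definitions

variable {V : Type} [NormedAddCommGroup V] [NormedSpace ℝ V]

/-- `∑ a_n x_n = v`, with convergence of the partial sums. -/
def Expands (x : ℕ → V) (a : ℕ → ℝ) (v : V) : Prop :=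
  Tendsto (fun n => ∑ i ∈ Finset.range n, a i • x i) atTop (𝓝 v)

/-- `x` is a Schauder basis: every vector has a unique expansion. -/
def IsSchauderBasis (x : ℕ → V) : Prop := ∀ v, ∃! a : ℕ → ℝ, Expands x a v

/-- `f` are coordinate functionals of `x` and every vector has an expansion. -/
def IsBasisWith (x : ℕ → V) (f : ℕ → (V →L[ℝ] ℝ)) : Prop :=
  (∀ i j, f i (x j) = if i = j then 1 else 0) ∧ ∀ v, Expands x (fun n => f n v) v

/-- `x` is unconditional: every expansion converges unconditionally. -/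
def IsUnconditional (x : ℕ → V) : Prop :=
  ∀ (v : V) (a : ℕ → ℝ), Expands x a v → Summable fun i => a i • x i

/-- The sequence `a'` is a greedy rearrangement of the sequence `a`. -/
def IsGreedyRearrangement (a a' : ℕ → ℝ) : Prop :=
  ∃ π : Equiv.Perm ℕ, (∀ n, |a' (π n)| = |a n|) ∧
    ∀ k, 0 < |a k| → |a k| < ⨆ n, |a n| → π k = k ∧ a' k = a k

/-- `x` has Property (A) with respect to `N`. -/
def PropertyA (N : V → ℝ) (x : ℕ → V) : Prop :=
  ∀ (v v' : V) (a a' : ℕ → ℝ), Expands x a v → Expands x a' v' →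
    IsGreedyRearrangement a a' → N v = N v'

/-- `N` is a norm equivalent to the norm of the space. -/
def IsEquivalentNorm (N : Seminorm ℝ V) : Prop :=
  ∃ c C : ℝ, 0 < c ∧ ∀ v, c * ‖v‖ ≤ N v ∧ N v ≤ C * ‖v‖

/-- A choice of signs. -/
def IsSign (ε : ℕ → ℝ) : Prop := ∀ i, ε i = 1 ∨ ε i = -1

/-- `x` (with coordinate functionals `f`) is bidemocratic. -/
def IsBidemocratic (x : ℕ → V) (f : ℕ → (V →L[ℝ] ℝ)) : Prop :=
  ∃ C : ℝ, ∀ (A B : Finset ℕ) (ε δ : ℕ → ℝ), A.card = B.card → IsSign ε → IsSign δ →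
    ‖∑ i ∈ A, ε i • x i‖ * ‖∑ i ∈ B, δ i • f i‖ ≤ C * A.card

/-- The system `f` is quasi-greedy on finite linear combinations. -/
def IsQuasiGreedy (f : ℕ → (V →L[ℝ] ℝ)) : Prop :=
  ∃ K : ℝ, ∀ (F : Finset ℕ) (c : ℕ → ℝ), ∀ A ⊆ F,
    (∀ n ∈ A, ∀ k ∈ F, k ∉ A → |c k| ≤ |c n|) →
      ‖∑ n ∈ A, c n • f n‖ ≤ K * ‖∑ n ∈ F, c n • f n‖

/-- Reflexivity. -/
def IsReflexiveSpace (V : Type) [NormedAddCommGroup V] [NormedSpace ℝ V] : Prop :=
  Function.Surjective (NormedSpace.inclusionInDoubleDual ℝ V)

end Definitions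

/-- General renorming theorem. -/
theorem general (V : Type) [NormedAddCommGroup V] [NormedSpace ℝ V] [CompleteSpace V]
    (x : ℕ → V) (f : ℕ → (V →L[ℝ] ℝ)) (hb : IsBasisWith x f) (hbd : IsBidemocratic x f)
    (hqg : IsQuasiGreedy f) : ∃ N : Seminorm ℝ V, IsEquivalentNorm N ∧ PropertyA N x := by
  classical
  obtain ⟨hbi, hexp⟩ := hb
  obtain ⟨C, hC⟩ := hbd
  obtain ⟨K, hK⟩ := hqg
  have hf0 : 0 < ‖f 0‖ := by
    rw [norm_pos_iff]
    intro h0
    have := hbi 0 0
    rw [h0] at this
    simp at this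
  have hB : ∀ n, ‖x n‖ ≤ C / ‖f 0‖ := by
    intro n
    have := hC {n} {0} (fun _ => 1) (fun _ => 1) rfl (fun _ => Or.inl rfl) (fun _ => Or.inl rfl)
    simp only [Finset.sum_singleton, one_smul, Finset.card_singleton, Nat.cast_one, mul_one] at this
    rwa [le_div_iff₀ hf0]
  obtain ⟨φ, C', hg⟩ := X202.GenRen.exists_good hB hbi (fun A A' ε δ h h1 h2 => hC A A' ε δ h h1 h2)
    hK
  -- the partial sums are uniformly bounded
  set T : ℕ → (V →L[ℝ] V) := fun n => ∑ i ∈ Finset.range n, (f i).smulRight (x i) with hT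
  have hTy : ∀ n y, T n y = ∑ i ∈ Finset.range n, f i y • x i := by
    intro n y
    simp only [hT]
    rw [sum_apply]
    rfl
  obtain ⟨K1, hK1⟩ := banach_steinhaus (g := T) (fun y => by
    obtain ⟨b, hb⟩ := (hexp y).norm.bddAbove_range
    refine ⟨b, fun n => ?_⟩
    rw [hTy]
    exact hb ⟨n, rfl⟩)
  have hK2 : 0 < max K1 1 := lt_max_of_lt_right one_pos
  have hS : ∀ n y, ‖∑ i ∈ Finset.range n, f i y • x i‖ ≤ max K1 1 * ‖y‖ := by
    intro n y
    rw [← hTy]
    exact ((T n).le_of_opNorm_le (hK1 n) y).trans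
      (mul_le_mul_of_nonneg_right (le_max_left _ _) (norm_nonneg _))
  refine ⟨hg.newnorm, ⟨1 / max K1 1, _, by positivity, fun v =>
    ⟨hg.le_newnorm hK2 hS hexp v, hg.newnorm_le v⟩⟩, ?_⟩
  rintro v v' a a' ha ha' ⟨π, hπ, hfix⟩
  exact hg.propA hexp ha ha' π hπ hfix

/-- **Main result.** (1) Every bidemocratic Schauder basis of a Banach space whose coordinate
functionals are quasi-greedy has Property (A) for some equivalent norm. (2) There is a reflexive
Banach space with a conditional Schauder basis that has Property (A) for the norm of the space. -/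
theorem result :
    (∀ (V : Type) [NormedAddCommGroup V] [NormedSpace ℝ V] [CompleteSpace V]
      (x : ℕ → V) (f : ℕ → (V →L[ℝ] ℝ)),
      IsBasisWith x f → IsBidemocratic x f → IsQuasiGreedy f →
      ∃ N : Seminorm ℝ V, IsEquivalentNorm N ∧ PropertyA N x) ∧
    (∃ (V : Type) (_ : NormedAddCommGroup V) (_ : NormedSpace ℝ V) (_ : CompleteSpace V)
      (x : ℕ → V), IsReflexiveSpace V ∧ IsSchauderBasis x ∧ ¬ IsUnconditional x ∧
        PropertyA (fun v => ‖v‖) x) := by
  refine ⟨fun V _ _ _ x f h1 h2 h3 => general V x f h1 h2 h3, ?_⟩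
  obtain ⟨B⟩ : Nonempty (HilbertBasis ℕ ℝ (lp (fun _ : ℕ => ℝ) 2)) := ⟨default⟩
  have hu : Orthonormal ℝ (B : ℕ → lp (fun _ : ℕ => ℝ) 2) := B.orthonormal
  have hd : Dense (Submodule.span ℝ (Set.range (B : ℕ → lp (fun _ : ℕ => ℝ) 2)) :
      Set (lp (fun _ : ℕ => ℝ) 2)) := by
    rw [dense_iff_closure_eq, ← Submodule.topologicalClosure_coe, B.dense_span]
    rfl
  let E : X202.Renorm.EqN (lp (fun _ : ℕ => ℝ) 2) :=
    { N := X202.CB.newnorm hu
      c := 1 / 14
      C := 247
      hc := by norm_num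
      hC := by norm_num
      lo := fun v => X202.CB.le_newnorm hu hd v
      hi := fun v => X202.CB.newnorm_le hu v }
  have hT := X202.Renorm.idC E
  have hexpand : ∀ (a : ℕ → ℝ) (v : lp (fun _ : ℕ => ℝ) 2),
      Expands (fun n => X202.Renorm.idC E (X202.CB.b B n)) a (X202.Renorm.idC E v) ↔
      Tendsto (fun n => ∑ i ∈ Finset.range n, a i • X202.CB.b B i) atTop (𝓝 v) := by
    intro a v
    rw [← X202.Renorm.tendsto_iff E]
    unfold Expands
    have : (fun n => ∑ i ∈ Finset.range n, a i • X202.Renorm.idC E (X202.CB.b B i)) =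
        fun n => X202.Renorm.idC E (∑ i ∈ Finset.range n, a i • X202.CB.b B i) := by
      funext n
      rw [map_sum]
      exact Finset.sum_congr rfl fun i _ => by rw [map_smul]
    rw [this]
  have hsurj : ∀ v : X202.Renorm.Sp E, ∃ w, X202.Renorm.idC E w = v :=
    fun v => ⟨(X202.Renorm.idC E).symm v, by simp⟩
  refine ⟨X202.Renorm.Sp E, inferInstance, inferInstance, inferInstance,
    fun n => X202.Renorm.idC E (X202.CB.b B n), X202.Renorm.reflexive (X202.Renorm.idC E),
    fun v => ?_, fun h => ?_, ?_⟩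
  · obtain ⟨w, rfl⟩ := hsurj v
    refine ⟨X202.CB.coord B w, (hexpand _ _).2 (X202.CB.expand hu hd w), fun a ha => ?_⟩
    exact X202.CB.unique_coord hu ((hexpand _ _).1 ha)
  · refine X202.CB.conditional hu fun y => ?_
    have h1 := h (X202.Renorm.idC E y) (X202.CB.coord B y)
      ((hexpand _ _).2 (X202.CB.expand hu hd y))
    have h2 := h1.map (X202.Renorm.idC E).symm (X202.Renorm.idC E).symm.continuous
    refine h2.congr fun i => ?_
    simp
  · rintro v v' a a' ha ha' ⟨π, hπ, hfix⟩
    obtain ⟨w, rfl⟩ := hsurj v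
    obtain ⟨w', rfl⟩ := hsurj v'
    exact X202.CB.propA hu ((hexpand _ _).1 ha) ((hexpand _ _).1 ha') π hπ hfix

end Pool.Agent.Results.MP_65ccae_an.ReflexivePropertyA
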